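import Pool.Agent.V8H77.K3.Main

/-!
# The classes of K3 type on one abelian variety
-/

set_option autoImplicit false

namespace Pool.Agent.V8H77.K3

open Module Polynomial
open Pool.Agent.V8H94.CT
open Pool.Agent.V8H77.NT (K3Number exists_boxN)
open Pool.Agent.V8H71.TC (InBox delta box_generation)

variable {p : ℕ} [Fact p.Prime] {Ω : Type} [Field Ω] [CharZero Ω]

/-- The part of the cohomology of degree one which is spanned by eigenvectors of Frobenius for
eigenvalues of K3 type near to supersingular ones. -/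
def K3Part (N : ℕ) (B : AbVar p Ω) : Submodule Ω (ExteriorAlgebra Ω B.H) :=
  Submodule.span Ω {y | ∃ (v : B.H) (a : Ω), B.F v = a • v ∧ K3Number p B.m a ∧
    IsIntegral ℤ (a ^ (2 * N) / (p : Ω) ^ (B.m * (N - 1))) ∧ y = ExteriorAlgebra.ι Ω v}

/-- The system contains the Tate classes `x * y * z` with `x` of degree two, `y` in the part of K3
type, `z` supersingular of degree one. -/
def K3Products (S : CycleSystem p Ω) (N : ℕ) (B : AbVar p Ω) : Prop :=
  ∀ x ∈ ⋀[Ω]^2 B.H, ∀ y ∈ K3Part N B, ∀ z, IsSupersingularClass B 1 z →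
    IsTate B 2 (x * y * z) → x * y * z ∈ S.C B

/-- The data of `Base` without the four-term relations. -/
structure PBase (S : CycleSystem p Ω) (k : ℕ) (W : Set Ω) : Prop where
  pos : 0 < k
  weil : ∀ w ∈ W, IsWeil p (2 * k) w
  root : ∀ w ∈ W, ∀ z : Ω, aeval z (minpoly ℚ w) = 0 → z ∈ W
  base : (p : Ω) ^ k ∈ W
  pair : ∀ x ∈ W, ∀ y ∈ W, ∀ s : ℕ, 0 < s → (x * y) ^ s = ((p : Ω) ^ (2 * k)) ^ s →
    RelA S (2 * k) {x, y}

variable {S : CycleSystem p Ω} {k : ℕ} {W : Set Ω}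

theorem PBase.ne_zero (B : PBase S k W) {a : Ω} (ha : a ∈ W) : a ≠ 0 := (B.weil a ha).ne_zero

theorem PBase.conj [IsAlgClosed Ω] (B : PBase S k W) {a : Ω} (ha : a ∈ W) :
    (p : Ω) ^ (2 * k) / a ∈ W := B.root a ha _ (B.weil a ha).conj_root

theorem PBase.mem_pair (B : PBase S k W) {A : AbVar p Ω} (hA : A.m = 2 * k) {a b : Ω} (ha : a ∈ W)
    (hb : b ∈ W) (hab : a * b = (p : Ω) ^ (2 * k)) {u v : A.H} (hu : A.F u = a • u)
    (hv : A.F v = b • v) : Mem S A {u, v} := by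
  have h := B.pair a ha b hb 1 one_pos (by rw [pow_one, pow_one, hab]) A hA {(a, u), (b, v)} (by
    intro x hx
    simp only [Multiset.insert_eq_cons, Multiset.mem_cons, Multiset.mem_singleton] at hx
    rcases hx with rfl | rfl
    · exact hu
    · exact hv) (by simp)
  simpa using h

theorem PBase.cancel [IsAlgClosed Ω] (B : PBase S k W) {a : Ω} (ha : a ∈ W) {μ : Multiset Ω}
    (h : RelA S (2 * k) (a ::ₘ ((p : Ω) ^ (2 * k) / a) ::ₘ μ)) : RelA S (2 * k) μ := by
  classical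
  intro A hA T hT hTμ
  obtain ⟨D, n, b, c, hDm, h1, h2, h3, i₀, hi₀⟩ :=
    exists_isotypic (Nat.mul_pos two_pos B.pos) (B.weil a ha)
  have hm : A.m = D.m := by rw [hA, hDm]
  have hcW : ∀ i, c i ∈ W := fun i => B.root a ha _ (h3 i)
  let g : Fin n ⊕ Fin n → A.H × D.H := fun j => LinearMap.inr Ω A.H D.H (b j)
  have hg1 : ∀ i, (A.prod D hm).F (g (Sum.inl i)) = c i • g (Sum.inl i) := by
    intro i
    change ((A.F 0, D.F (b (Sum.inl i))) : A.H × D.H) = c i • ((0, b (Sum.inl i)) : A.H × D.H)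
    rw [h1, map_zero, Prod.smul_mk, smul_zero]
  have hg2 : ∀ i, (A.prod D hm).F (g (Sum.inr i)) = ((p : Ω) ^ (2 * k) / c i) • g (Sum.inr i) := by
    intro i
    change ((A.F 0, D.F (b (Sum.inr i))) : A.H × D.H) =
      ((p : Ω) ^ (2 * k) / c i) • ((0, b (Sum.inr i)) : A.H × D.H)
    rw [h2, map_zero, Prod.smul_mk, smul_zero]
  let T' : Multiset (A.H × D.H) := (T.map Prod.snd).map (LinearMap.inl Ω A.H D.H)
  have hfirst : Mem S (A.prod D hm)
      (({g (Sum.inl i₀), g (Sum.inr i₀)} : Multiset (A.H × D.H)) + T') := by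
    have h5 := h (A.prod D hm) hA ((a, g (Sum.inl i₀)) ::ₘ
      ((p : Ω) ^ (2 * k) / a, g (Sum.inr i₀)) ::ₘ
      T.map (fun x => (x.1, (LinearMap.inl Ω A.H D.H x.2 : A.H × D.H)))) ?_ ?_
    · have e : Multiset.map Prod.snd ((a, g (Sum.inl i₀)) ::ₘ
          ((p : Ω) ^ (2 * k) / a, g (Sum.inr i₀)) ::ₘ
          T.map (fun x => (x.1, (LinearMap.inl Ω A.H D.H x.2 : A.H × D.H)))) =
          ({g (Sum.inl i₀), g (Sum.inr i₀)} : Multiset (A.H × D.H)) + T' := by
        simp only [Multiset.map_cons, T', Multiset.insert_eq_cons,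
          Multiset.cons_add, Multiset.singleton_add]
        rw [Multiset.map_map, Multiset.map_map]
        rfl
      exact (congrArg (Mem S (A.prod D hm)) e).mp h5
    · intro x hx
      rcases Multiset.mem_cons.1 hx with rfl | hx
      · have := hg1 i₀
        rwa [hi₀] at this
      · rcases Multiset.mem_cons.1 hx with rfl | hx
        · have := hg2 i₀
          rwa [hi₀] at this
        · obtain ⟨y, hy, rfl⟩ := Multiset.mem_map.1 hx
          have := hT y hy
          change ((A.F y.2, D.F 0) : A.H × D.H) = y.1 • ((y.2, 0) : A.H × D.H)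
          rw [this, map_zero, Prod.smul_mk, smul_zero]
    · simp only [Multiset.map_cons, Multiset.map_map]
      rw [← hTμ]
      rfl
  have hothers : Mem S (A.prod D hm)
      (∑ i ∈ Finset.univ.erase i₀, ({g (Sum.inl i), g (Sum.inr i)} : Multiset (A.H × D.H))) := by
    refine Mem.sum _ _ fun i _ => ?_
    refine B.mem_pair (A := A.prod D hm) hA (hcW i) (B.conj (hcW i)) ?_ (hg1 i) (hg2 i)
    rw [mul_div_cancel₀]
    exact B.ne_zero (hcW i)
  have htotal : Mem S (A.prod D hm)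
      (T' + (Finset.univ : Finset (Fin n ⊕ Fin n)).val.map g) := by
    have e : T' + (Finset.univ : Finset (Fin n ⊕ Fin n)).val.map g =
        (∑ i ∈ Finset.univ.erase i₀, ({g (Sum.inl i), g (Sum.inr i)} : Multiset (A.H × D.H))) +
          (({g (Sum.inl i₀), g (Sum.inr i₀)} : Multiset (A.H × D.H)) + T') := by
      rw [map_univ_sum, ← Finset.sum_erase_add _ _ (Finset.mem_univ i₀)]
      abel
    exact (congrArg (Mem S (A.prod D hm)) e).mpr (hothers.add hfirst)
  intro l hl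
  let b' : Basis (Fin (n + n)) Ω D.H := b.reindex finSumFinEquiv
  refine S.push A D hm (n + n) b' (wedge l) ?_
  have e1 : ExteriorAlgebra.ιMulti Ω (n + n) b' = wedge (List.ofFn b') := by
    rw [ExteriorAlgebra.ιMulti_apply, wedge, List.map_ofFn]
    rfl
  have e2 : ExteriorAlgebra.map (LinearMap.inl Ω A.H D.H) (wedge l) *
      ExteriorAlgebra.map (LinearMap.inr Ω A.H D.H) (ExteriorAlgebra.ιMulti Ω (n + n) b') =
      wedge (l.map (LinearMap.inl Ω A.H D.H) ++ (List.ofFn b').map (LinearMap.inr Ω A.H D.H)) := by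
    rw [e1, map_wedge, map_wedge, wedge_append]
  rw [e2]
  refine htotal _ ?_
  change ((l.map (LinearMap.inl Ω A.H D.H) ++ (List.ofFn b').map (LinearMap.inr Ω A.H D.H) :
    List (A.H × D.H)) : Multiset (A.H × D.H)) =
      T' + (Finset.univ : Finset (Fin n ⊕ Fin n)).val.map g
  rw [← Multiset.coe_add]
  congr 1
  · rw [← Multiset.map_coe, hl]
  · rw [← Multiset.map_coe, ← Fin.univ_val_map, Multiset.map_map]
    have e3 : (Finset.univ : Finset (Fin n ⊕ Fin n)).val =
        (Finset.univ : Finset (Fin (n + n))).val.map finSumFinEquiv.symm :=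
      (Multiset.map_univ_val_equiv finSumFinEquiv.symm).symm
    rw [e3, Multiset.map_map]
    refine Multiset.map_congr rfl fun j _ => ?_
    simp [b', g]

variable [IsAlgClosed Ω]

/-- The four-term relations follow from the special ones. -/
theorem PBase.toBase (B : PBase S k W) {X : Type} [Fintype X] {inv : X → X} {e : X → ℕ}
    {τ : Ω → X → ℤ} (hB : IsBox p k W inv e τ)
    (h3 : ∀ w₁ ∈ W, ∀ w₂ ∈ W, ∀ w₃ ∈ W, ∀ w₄ ∈ W,
      (∃ s : ℕ, 0 < s ∧ (w₁ * w₂ * w₃ * w₄) ^ s = (((p : Ω) ^ k) ^ 4) ^ s) →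
      (∃ x, (∀ y, y ≠ x → y ≠ inv x → τ w₃ y = 0) ∧ ∀ y, |τ w₃ y| ≤ 1) →
      (∃ s : ℕ, 0 < s ∧ w₄ ^ s = ((p : Ω) ^ k) ^ s) → RelA S (2 * k) {w₁, w₂, w₃, w₄}) :
    Base S k W := by
  classical
  refine ⟨B.pos, B.weil, B.root, B.base, B.pair, ?_⟩
  let R : Multiset (X → ℤ) → Prop := fun μ => ∀ s : Multiset Ω, (∀ w ∈ s, w ∈ W) →
    s.map τ = μ → RelA S (2 * k) s
  have hbox : ∀ w ∈ W, InBox inv e (τ w) := fun w hw => ⟨hB.odd w hw, hB.bound w hw⟩
  have key : ∀ s : Multiset Ω, (∀ w ∈ s, w ∈ W) → Even (Multiset.card s) → (s.map τ).sum = 0 →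
      RelA S (2 * k) s := by
    intro s hs he hsum
    have h1 : R (s.map τ) := by
      refine box_generation hB.inv_inv hB.e_inv R ?_ ?_ ?_ ?_ ?_ (s.map τ) ?_ ?_ hsum
      · intro s _ h
        rw [Multiset.map_eq_zero] at h
        subst h
        exact RelA.zero
      · intro μ ν hμ hν s hs h
        obtain ⟨s₁, s₂, rfl, h1, h2⟩ := exists_split τ μ s ν h
        exact (hμ s₁ (fun w hw => hs w (Multiset.mem_add.2 (Or.inl hw))) h1).add
          (hν s₂ (fun w hw => hs w (Multiset.mem_add.2 (Or.inr hw))) h2)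
      · intro T _ s hs h
        obtain ⟨n, hn, hrel⟩ := (hB.rel s hs).2 (by rw [h]; simp)
        obtain ⟨a, b, t, rfl, _, _, ht⟩ := exists_two (μ := 0) h
        rw [Multiset.map_eq_zero] at ht
        subst ht
        refine B.pair a (hs a (by simp)) b (hs b (by simp)) n hn ?_
        simp only [Multiset.prod_cons, Multiset.prod_zero, mul_one, Multiset.card_cons,
          Multiset.card_zero, zero_add] at hrel
        rw [hrel]
        congr 1
        rw [← pow_mul]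
        congr 1
        ring
      · intro T hT μ hμ s hs h
        obtain ⟨w, hw, hwT⟩ := hB.surj T hT.1 hT.2
        refine B.cancel hw (hμ _ ?_ ?_)
        · intro x hx
          rcases Multiset.mem_cons.1 hx with rfl | hx
          · exact hw
          · rcases Multiset.mem_cons.1 hx with rfl | hx
            · exact hB.conj w hw
            · exact hs x hx
        · rw [Multiset.map_cons, Multiset.map_cons, hB.τ_conj w hw, hwT, h]
      · intro T hT x hx s hs h
        obtain ⟨w₁, w₂, t, rfl, h1, h2, ht⟩ := exists_two h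
        obtain ⟨w₃, w₄, t', rfl, h3', h4, ht'⟩ := exists_two (μ := 0) ht
        rw [Multiset.map_eq_zero] at ht'
        subst ht'
        obtain ⟨k₁, hk₁, hr₁⟩ := (hB.rel _ hs).2 (by
          simp only [Multiset.map_cons, Multiset.map_zero, Multiset.sum_cons, Multiset.sum_zero,
            h1, h2, h3', h4]
          abel)
        obtain ⟨k₂, hk₂, hr₂⟩ := (hB.rel {w₄} (by
          intro w hw'
          rw [Multiset.mem_singleton.1 hw']
          exact hs _ (by simp))).2 (by simp [h4])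
        simp only [Multiset.prod_cons, Multiset.prod_zero, mul_one, Multiset.card_cons,
          Multiset.card_zero, zero_add] at hr₁
        simp only [Multiset.prod_singleton, Multiset.card_singleton, pow_one] at hr₂
        refine h3 w₁ (hs _ (by simp)) w₂ (hs _ (by simp)) w₃ (hs _ (by simp)) w₄
          (hs _ (by simp)) ⟨k₁, hk₁, ?_⟩ ⟨x, ?_, ?_⟩ ⟨k₂, hk₂, hr₂⟩
        · rw [mul_assoc, mul_assoc, hr₁]
        · intro y hy hy'
          rw [h3', Pi.neg_apply]
          simp [delta, hy, hy']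
        · intro y
          rw [h3', Pi.neg_apply, abs_neg]
          unfold delta
          split_ifs <;> simp
      · intro T hT
        obtain ⟨w, hw, rfl⟩ := Multiset.mem_map.1 hT
        exact hbox w (hs w hw)
      · rw [Multiset.card_map]; exact he
    exact h1 s hs rfl
  intro x hx y hy z hz s hs hxyz
  have hmem : ∀ w ∈ ({x, y, z, (p : Ω) ^ k} : Multiset Ω), w ∈ W := by
    intro w hw
    simp only [Multiset.insert_eq_cons, Multiset.mem_cons, Multiset.mem_singleton] at hw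
    rcases hw with rfl | rfl | rfl | rfl
    · exact hx
    · exact hy
    · exact hz
    · exact B.base
  refine key _ hmem (by simp [Multiset.insert_eq_cons]; exact ⟨2, rfl⟩) ((hB.rel _ hmem).1 ⟨s, hs, ?_⟩)
  simp only [Multiset.insert_eq_cons, Multiset.prod_cons, Multiset.prod_singleton,
    Multiset.card_cons, Multiset.card_singleton]
  rw [← mul_assoc, ← mul_assoc, mul_pow (x * y * z), hxyz, ← mul_pow, ← pow_succ]

omit [IsAlgClosed Ω] in
/-- The basic relations from the hypotheses on one abelian variety. -/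
theorem pbase_of_universal (hk : 0 < k) (hWw : ∀ w ∈ W, IsWeil p (2 * k) w)
    (hWr : ∀ w ∈ W, ∀ z : Ω, aeval z (minpoly ℚ w) = 0 → z ∈ W) (hWb : (p : Ω) ^ k ∈ W)
    (B : AbVar p Ω) (hBm : B.m = 2 * k) (u : Fin 4 × W → B.H)
    (hu : ∀ j, B.F (u j) = j.2.1 • u j)
    (hB : ∀ (C : AbVar p Ω) (s t : ℕ) (v : Fin 4 × W → C.H),
        (∀ j, (C.F ^ s) (v j) = (j.2.1) ^ t • v j) →
        ∃ h : B.H →ₗ[Ω] C.H, h ∘ₗ (B.F ^ t) = (C.F ^ s) ∘ₗ h ∧ ∀ j, h (u j) = v j)
    (hdiv : ∀ x, IsTate B 1 x → x ∈ S.C B) : PBase S k W := by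
  classical
  refine ⟨hk, hWw, hWr, hWb, ?_⟩
  intro x hx y hy s hs hxy A hA T hT hμ
  obtain ⟨⟨x', u₁⟩, ⟨y', u₂⟩, T', rfl, hx', hy', hT'⟩ := exists_two (μ := 0) hμ
  rw [Multiset.map_eq_zero] at hT'
  subst hT'
  simp only at hx' hy'
  subst hx' hy'
  have h1 := hT (x', u₁) (by simp)
  have h2 := hT (y', u₂) (by simp)
  simp only at h1 h2
  have hj : ((0 : Fin 4), (⟨x', hx⟩ : W)) ≠ (1, ⟨y', hy⟩) := fst_ne (by decide)
  obtain ⟨h, hh, hhu⟩ := hB A 1 1
    (fun j => if j = (0, ⟨x', hx⟩) then u₁ else if j = (1, ⟨y', hy⟩) then u₂ else 0) (by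
      intro j
      by_cases h0 : j = (0, ⟨x', hx⟩)
      · rw [if_pos h0, h0, pow_one, pow_one, h1]
      · rw [if_neg h0]
        by_cases h0' : j = (1, ⟨y', hy⟩)
        · rw [if_pos h0', h0', pow_one, pow_one, h2]
        · rw [if_neg h0', map_zero, smul_zero])
  have e1 : h (u (0, ⟨x', hx⟩)) = u₁ := by rw [hhu, if_pos rfl]
  have e2 : h (u (1, ⟨y', hy⟩)) = u₂ := by rw [hhu, if_neg hj.symm, if_pos rfl]
  have h5 : wedge [u (0, ⟨x', hx⟩), u (1, ⟨y', hy⟩)] ∈ S.C B := by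
    refine hdiv _ ⟨wedge_mem [_, _], s, hs, ?_⟩
    rw [map_wedge]
    simp only [List.map_cons, List.map_nil, wedge_cons, wedge_nil, mul_one,
      pow_apply_eigen (hu (0, ⟨x', hx⟩)), pow_apply_eigen (hu (1, ⟨y', hy⟩)), map_smul]
    rw [smul_mul_smul_comm, ← mul_pow, hxy, hBm, ← pow_mul]
  have h6 := S.pull A B h (isHom_of_comm (by rw [hA, hBm]) (pow_comp_pow hh)) _ h5
  rw [map_wedge] at h6
  simp only [List.map_cons, List.map_nil, e1, e2] at h6
  exact Mem.of_list h6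

omit [IsAlgClosed Ω] in
/-- The special relations from the classes of K3 type on one abelian variety. -/
theorem special_of_universal {N : ℕ} (B : AbVar p Ω) (hBm : B.m = 2 * k) (u : Fin 4 × W → B.H)
    (hu : ∀ j, B.F (u j) = j.2.1 • u j)
    (hB : ∀ (C : AbVar p Ω) (s t : ℕ) (v : Fin 4 × W → C.H),
        (∀ j, (C.F ^ s) (v j) = (j.2.1) ^ t • v j) →
        ∃ h : B.H →ₗ[Ω] C.H, h ∘ₗ (B.F ^ t) = (C.F ^ s) ∘ₗ h ∧ ∀ j, h (u j) = v j)
    (hK : K3Products S N B) {w₁ w₂ w₃ w₄ : Ω} (hw₁ : w₁ ∈ W) (hw₂ : w₂ ∈ W) (hw₃ : w₃ ∈ W)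
    (hw₄ : w₄ ∈ W) {s : ℕ} (hs : 0 < s) (hprod : (w₁ * w₂ * w₃ * w₄) ^ s = (((p : Ω) ^ k) ^ 4) ^ s)
    (h3 : K3Number p (2 * k) w₃ ∧ IsIntegral ℤ (w₃ ^ (2 * N) / (p : Ω) ^ (2 * k * (N - 1))))
    {t : ℕ} (ht : 0 < t) (h4 : w₄ ^ t = ((p : Ω) ^ k) ^ t) : RelA S (2 * k) {w₁, w₂, w₃, w₄} := by
  classical
  intro A hA T hT hμ
  obtain ⟨⟨x', u₁⟩, ⟨y', u₂⟩, T', rfl, hx', hy', hT'⟩ := exists_two hμ
  obtain ⟨⟨z', u₃⟩, ⟨c', u₄⟩, T'', rfl, hz', hc', hT''⟩ := exists_two (μ := 0) hT'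
  rw [Multiset.map_eq_zero] at hT''
  subst hT''
  simp only at hx' hy' hz' hc'
  subst hx' hy' hz' hc'
  have h1 := hT (x', u₁) (by simp)
  have h2 := hT (y', u₂) (by simp)
  have h3' := hT (z', u₃) (by simp)
  have h4' := hT (c', u₄) (by simp)
  simp only at h1 h2 h3' h4'
  let j₁ : Fin 4 × W := (0, ⟨x', hw₁⟩)
  let j₂ : Fin 4 × W := (1, ⟨y', hw₂⟩)
  let j₃ : Fin 4 × W := (2, ⟨z', hw₃⟩)
  let j₄ : Fin 4 × W := (3, ⟨c', hw₄⟩)
  obtain ⟨h, hh, hhu⟩ := hB A 1 1
    (fun j => if j = j₁ then u₁ else if j = j₂ then u₂ else if j = j₃ then u₃ else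
      if j = j₄ then u₄ else 0) (by
      intro j
      rw [pow_one, pow_one]
      by_cases a1 : j = j₁
      · rw [if_pos a1, a1]; exact h1
      rw [if_neg a1]
      by_cases a2 : j = j₂
      · rw [if_pos a2, a2]; exact h2
      rw [if_neg a2]
      by_cases a3 : j = j₃
      · rw [if_pos a3, a3]; exact h3'
      rw [if_neg a3]
      by_cases a4 : j = j₄
      · rw [if_pos a4, a4]; exact h4'
      rw [if_neg a4, map_zero, smul_zero])
  have e1 : h (u j₁) = u₁ := by rw [hhu, if_pos rfl]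
  have e2 : h (u j₂) = u₂ := by
    rw [hhu, if_neg (fst_ne (by decide)), if_pos rfl]
  have e3 : h (u j₃) = u₃ := by
    rw [hhu, if_neg (fst_ne (by decide)), if_neg (fst_ne (by decide)), if_pos rfl]
  have e4 : h (u j₄) = u₄ := by
    rw [hhu, if_neg (fst_ne (by decide)), if_neg (fst_ne (by decide)), if_neg (fst_ne (by decide)),
      if_pos rfl]
  have hsup1 : IsSupersingularClass B 1 (wedge [u j₄]) := by
    refine ⟨wedge_mem [_], t, ht, ?_⟩
    rw [map_wedge]
    simp only [List.map_cons, List.map_nil, wedge_cons, wedge_nil, mul_one,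
      pow_apply_eigen (hu _), map_smul]
    change (c' ^ (2 * t)) • _ = _
    rw [hBm, mul_comm 2 t, pow_mul, h4, ← pow_mul, ← pow_mul]
    congr 2
    ring
  have hy : wedge (R := Ω) [u j₃] ∈ K3Part N B := by
    refine Submodule.subset_span ⟨u j₃, z', hu j₃, ?_, ?_, by simp⟩
    · rw [hBm]; exact h3.1
    · rw [hBm]; exact h3.2
  have e5 : wedge (R := Ω) [u j₁, u j₂] * wedge [u j₃] * wedge [u j₄] =
      wedge [u j₁, u j₂, u j₃, u j₄] := by
    simp [mul_assoc]
  have hT4 := isTate_four (X := B) hBm (hu j₁) (hu j₂) (hu j₃) (hu j₄) hs hprod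
  have h5 := hK _ (wedge_mem [u j₁, u j₂]) _ hy _ hsup1 (by rw [e5]; exact hT4)
  rw [e5] at h5
  have h6 := S.pull A B h (isHom_of_comm (by rw [hA, hBm]) (pow_comp_pow hh)) _ h5
  rw [map_wedge] at h6
  simp only [List.map_cons, List.map_nil, e1, e2, e3, e4] at h6
  exact Mem.of_list h6

/-- **Classes of K3 type suffice.** -/
theorem exists_closed_K3 (A : AbVar p Ω) {N : ℕ} (hN : 0 < N) : ∃ B : AbVar p Ω, IsBuiltFrom A B ∧
    (∀ b : Ω, HasEigen B b → ∃ s : ℕ, 0 < s ∧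
      b ^ s ∈ IntermediateField.adjoin ℚ {a : Ω | HasEigen A a}) ∧
    ∀ S : CycleSystem p Ω, TateHolds S B 1 →
      List.TFAE [TateHoldsFor S B ∧ GeneralisedTateHoldsFor S B, TateHolds S B 2,
        K3Products S N B] := by
  classical
  obtain ⟨κ, W, X, _, inv, e, τ, hbox, hWfin, hAW, hfld, hfine⟩ := exists_boxN A hN
  have hκ := hbox.κ_pos
  have := hWfin.fintype
  obtain ⟨B, u, hBm, hBW, hu, hB⟩ := exists_universal' (p := p) (k := 2 * κ)
    (Nat.mul_pos two_pos hκ) hbox.root (J := Fin 4 × W) (fun j => j.2.1)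
    (fun j => ⟨hbox.weil _ j.2.2, j.2.2⟩)
  have heig : ∀ b ∈ W, HasEigen B b := by
    intro b hb
    refine ⟨u (0, ⟨b, hb⟩), ?_, hu _⟩
    intro hzero
    obtain ⟨D, n', e, c, hDm, he1, _, _, i, hi⟩ := exists_isotypic (p := p)
      (Nat.mul_pos two_pos hκ) (hbox.weil b hb)
    obtain ⟨h, _, hhu⟩ := hB D 1 1 (fun j => if j = (0, ⟨b, hb⟩) then e (Sum.inl i) else 0) (by
      intro j
      by_cases hj : j = (0, ⟨b, hb⟩)
      · rw [if_pos hj, hj, pow_one, pow_one, he1, hi]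
      · rw [if_neg hj, map_zero, smul_zero])
    have h1 := hhu (0, ⟨b, hb⟩)
    rw [hzero, map_zero, if_pos rfl] at h1
    exact e.ne_zero (Sum.inl i) h1.symm
  refine ⟨B, isBuiltFrom_of_eigenIn (Nat.mul_pos two_pos hκ) hBm heig hAW, ?_, fun S hdiv => ?_⟩
  · rintro b ⟨w, hw, h⟩
    exact hfld b (hBW b w hw h)
  · tfae_have 1 → 2 := fun H => H.1 B (isBuiltFrom_refl B) 2
    tfae_have 2 → 3 := fun H x _ y _ z _ hT => H _ hT
    tfae_have 3 → 1 := by
      intro H
      have hpb : PBase S κ W := pbase_of_universal hκ hbox.weil hbox.root hbox.base B hBm u hu hB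
        hdiv
      have hbase : Base S κ W := hpb.toBase hbox (by
        rintro w₁ hw₁ w₂ hw₂ w₃ hw₃ w₄ hw₄ ⟨s, hs, hprod⟩ ⟨x, hx, hx1⟩ ⟨t, ht, h4⟩
        exact special_of_universal B hBm u hu hB H hw₁ hw₂ hw₃ hw₄ hs hprod
          (hfine w₃ hw₃ x hx hx1 w₃ (minpoly.aeval ℚ w₃)) ht h4)
      have hS := tate_mem_box hbase hbox
      refine ⟨fun C hC r x hx => ?_, fun C hC j r => ?_⟩
      · exact tate_mem_of_box (Nat.mul_pos two_pos hκ) hbox.weil hbox.root hS
          (eigenIn_of_isBuiltFrom hBm hBW hC) r x hx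
      · exact effective_le_supported hbox hS C (eigenIn_of_isBuiltFrom hBm hBW hC) j r
    tfae_finish

end Pool.Agent.V8H77.K3
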