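import Pool.Agent.V8H77.K3.Rel
import Pool.Agent.V8H71.TC.HBox

/-!
# All Tate classes from Tate classes of K3 type
-/

set_option autoImplicit false

namespace Pool.Agent.V8H77.K3

open Module Polynomial
open Pool.Agent.V8H94.CT
open Pool.Agent.V8H77.NT (K3Number exists_boxN)
open Pool.Agent.V8H71.TC (InBox delta box_generation)

variable {p : ℕ} [Fact p.Prime] {Ω : Type} [Field Ω] [CharZero Ω] [IsAlgClosed Ω]
variable {S : CycleSystem p Ω} {L : IntermediateField ℚ Ω} {M N κ : ℕ}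

/-- All relations in a box from the special ones. -/
theorem rel_of_box [Normal ℚ L] {W : Set Ω} {X : Type} [Fintype X] [DecidableEq X] {inv : X → X} {e : X → ℕ}
    {τ : Ω → X → ℤ} (hB : IsBox p κ W inv e τ) (hS : HasDivisors S L)
    (hWL : ∀ w ∈ W, ∃ s : ℕ, 0 < s ∧ w ^ s ∈ L)
    (h3 : ∀ (s : Multiset Ω) (T : X → ℤ) (x : X), (∀ w ∈ s, w ∈ W) → 0 < T x → InBox inv e T →
      ∀ w₁ w₂ w₃ w₄, s = {w₁, w₂, w₃, w₄} → τ w₁ = T → τ w₂ = -(T - delta inv x) →
        τ w₃ = -(delta inv x) → τ w₄ = 0 → Rel S L (2 * κ) s)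
    (s : Multiset Ω) (hs : ∀ w ∈ s, w ∈ W) (he : Even (Multiset.card s))
    (hsum : (s.map τ).sum = 0) : Rel S L (2 * κ) s := by
  let R : Multiset (X → ℤ) → Prop := fun μ => ∀ s : Multiset Ω, (∀ w ∈ s, w ∈ W) →
    s.map τ = μ → Rel S L (2 * κ) s
  have hbox : ∀ w ∈ W, InBox inv e (τ w) := fun w hw => ⟨hB.odd w hw, hB.bound w hw⟩
  have key : R (s.map τ) := by
    refine box_generation hB.inv_inv hB.e_inv R ?_ ?_ ?_ ?_ ?_ (s.map τ) ?_ ?_ hsum
    · intro s _ h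
      rw [Multiset.map_eq_zero] at h
      subst h
      exact Rel.zero
    · intro μ ν hμ hν s hs h
      obtain ⟨s₁, s₂, rfl, h1, h2⟩ := exists_split τ μ s ν h
      exact (hμ s₁ (fun w hw => hs w (Multiset.mem_add.2 (Or.inl hw))) h1).add
        (hν s₂ (fun w hw => hs w (Multiset.mem_add.2 (Or.inr hw))) h2)
    · intro T _ s hs h
      obtain ⟨k, hk, hrel⟩ := (hB.rel s hs).2 (by rw [h]; simp)
      obtain ⟨a, b, t, rfl, _, _, ht⟩ := exists_two (μ := 0) h
      rw [Multiset.map_eq_zero] at ht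
      subst ht
      refine rel_pair_pow hS hk ?_
      simp only [Multiset.prod_cons, Multiset.prod_zero, mul_one, Multiset.card_cons,
        Multiset.card_zero, zero_add] at hrel
      rw [hrel]
      congr 1
      rw [← pow_mul]
      congr 1
      ring
    · intro T hT μ hμ s hs h
      obtain ⟨w, hw, hwT⟩ := hB.surj T hT.1 hT.2
      obtain ⟨k, hk, hkL⟩ := hWL w hw
      refine Rel.cancel hS (Nat.mul_pos two_pos hB.κ_pos) (hB.weil w hw) hk hkL ?_
      refine hμ _ ?_ ?_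
      · intro x hx
        rcases Multiset.mem_cons.1 hx with rfl | hx
        · exact hw
        · rcases Multiset.mem_cons.1 hx with rfl | hx
          · exact hB.conj w hw
          · exact hs x hx
      · rw [Multiset.map_cons, Multiset.map_cons, hB.τ_conj w hw, hwT, h]
    · intro T hT x hx s hs h
      obtain ⟨w₁, w₂, t, rfl, h1, h2, ht⟩ := exists_two h
      obtain ⟨w₃, w₄, t', rfl, h3', h4, ht'⟩ := exists_two (μ := 0) ht
      rw [Multiset.map_eq_zero] at ht'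
      subst ht'
      exact h3 _ T x hs hx hT w₁ w₂ w₃ w₄ rfl h1 h2 h3' h4
    · intro T hT
      obtain ⟨w, hw, rfl⟩ := Multiset.mem_map.1 hT
      exact hbox w (hs w hw)
    · rw [Multiset.card_map]; exact he
  exact key s hs rfl

/-- All relations in a box from the classes of K3 type. -/
theorem rel_of_K3 [Normal ℚ L] {W : Set Ω} {X : Type} [Fintype X] {inv : X → X} {e : X → ℕ}
    {τ : Ω → X → ℤ} (hB : IsBox p κ W inv e τ) (hS : HasDivisors S L) (hK : HasK3 S L N)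
    (hWL : ∀ w ∈ W, ∃ s : ℕ, 0 < s ∧ w ^ s ∈ L)
    (hfine : ∀ w ∈ W, ∀ x, (∀ y, y ≠ x → y ≠ inv x → τ w y = 0) →
        (∀ y, |τ w y| ≤ 1) → ∀ z : Ω, aeval z (minpoly ℚ w) = 0 →
          K3Number p (2 * κ) z ∧
            IsIntegral ℤ (z ^ (2 * N) / (p : Ω) ^ (2 * κ * (N - 1))))
    (s : Multiset Ω) (hs : ∀ w ∈ s, w ∈ W) (he : Even (Multiset.card s))
    (hsum : (s.map τ).sum = 0) : Rel S L (2 * κ) s := by
  classical
  refine rel_of_box hB hS hWL ?_ s hs he hsum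
  intro s T x hs hx hT w₁ w₂ w₃ w₄ hsw h1 h2' h3' h4
  have hw : w₁ ∈ W ∧ w₂ ∈ W ∧ w₃ ∈ W ∧ w₄ ∈ W := by
    rw [hsw] at hs
    exact ⟨hs _ (by simp), hs _ (by simp), hs _ (by simp), hs _ (by simp)⟩
  obtain ⟨k₁, hk₁, hr₁⟩ := (hB.rel s hs).2 (by
    rw [hsw]
    simp only [Multiset.insert_eq_cons, Multiset.map_cons, Multiset.map_singleton,
      Multiset.sum_cons, Multiset.sum_singleton, h1, h2', h3', h4]
    abel)
  obtain ⟨k₂, hk₂, hr₂⟩ := (hB.rel {w₄} (by
    intro w hw'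
    rw [Multiset.mem_singleton.1 hw']
    exact hw.2.2.2)).2 (by simp [h4])
  rw [hsw] at hr₁ ⊢
  simp only [Multiset.insert_eq_cons, Multiset.prod_cons, Multiset.prod_singleton,
    Multiset.card_cons, Multiset.card_singleton] at hr₁
  simp only [Multiset.prod_singleton, Multiset.card_singleton, pow_one] at hr₂
  obtain ⟨t, ht, htL⟩ := hWL w₃ hw.2.2.1
  refine rel_special hK hB.κ_pos (hB.weil w₃ hw.2.2.1) ht htL ?_ (Nat.mul_pos hk₁ hk₂) ?_ ?_
  · refine hfine w₃ hw.2.2.1 x ?_ ?_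
    · intro y hy hy'
      rw [h3', Pi.neg_apply]
      simp [delta, hy, hy']
    · intro y
      rw [h3', Pi.neg_apply, abs_neg]
      unfold delta
      split_ifs <;> simp
  · rw [mul_comm k₁, pow_mul, hr₂, ← pow_mul]
  · rw [pow_mul, pow_mul]
    congr 1
    rw [← mul_assoc, ← mul_assoc] at hr₁
    rw [hr₁]

omit [IsAlgClosed Ω] in
/-- All Tate classes on varieties with eigenvalues in a box. -/
theorem tate_level [Normal ℚ L] {W : Set Ω} {X : Type} {inv : X → X} {e : X → ℕ}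
    {τ : Ω → X → ℤ} (hB : IsBox p κ W inv e τ)
    (hWL : ∀ w ∈ W, ∃ s : ℕ, 0 < s ∧ w ^ s ∈ L)
    (hrel : ∀ s : Multiset Ω, (∀ w ∈ s, w ∈ W) → Even (Multiset.card s) → (s.map τ).sum = 0 →
      Rel S L (2 * κ) s) (A : AbVar p Ω) (hAm : A.m = 2 * κ)
    (hAW : ∀ (a : Ω) (v : A.H), v ≠ 0 → A.F v = a • v → a ∈ W) (r : ℕ)
    (x : ExteriorAlgebra Ω A.H) (hx : IsTate A r x) : x ∈ S.C A := by
  obtain ⟨hx, s, hs, hT⟩ := hx
  have h1 := mem_span_eigen A.F A.span_eigen (2 * r) s _ x hx hT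
  refine Submodule.span_le.2 ?_ h1
  rintro _ ⟨v, a, hv0, hv, hprod, rfl⟩
  have haW : ∀ i, a i ∈ W := fun i => hAW (a i) (v i) (hv0 i) (hv i)
  have hmem : ∀ w ∈ (List.ofFn a : Multiset Ω), w ∈ W := by
    intro w hw
    rw [Multiset.mem_coe] at hw
    obtain ⟨i, rfl⟩ := (List.mem_ofFn' _ w).1 hw
    exact haW i
  have hcard : Multiset.card (List.ofFn a : Multiset Ω) = 2 * r := by
    rw [Multiset.coe_card, List.length_ofFn]
  have h2 := hrel (List.ofFn a : Multiset Ω) hmem (by rw [hcard]; exact even_two_mul r)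
    ((hB.rel _ hmem).1 ⟨s, hs, by
      rw [Multiset.prod_coe, List.prod_ofFn, hcard, ← Finset.prod_pow, hprod, hAm, ← pow_mul,
        ← pow_mul]
      congr 1
      ring⟩)
  have h3 := h2 A hAm (fun a' v' hv' h' => hWL a' (hAW a' v' hv' h'))
    ((List.ofFn fun i => (a i, v i) : List (Ω × A.H)) : Multiset (Ω × A.H)) (by
      intro y hy
      rw [Multiset.mem_coe] at hy
      obtain ⟨i, rfl⟩ := (List.mem_ofFn' _ y).1 hy
      exact hv i) (by
      rw [Multiset.map_coe, List.map_ofFn]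
      rfl)
  have h4 := h3 (List.ofFn v) (by
    rw [Multiset.map_coe, List.map_ofFn]
    rfl)
  have e1 : ExteriorAlgebra.ιMulti Ω (2 * r) v = wedge (List.ofFn v) := by
    rw [ExteriorAlgebra.ιMulti_apply, wedge, List.map_ofFn]
    rfl
  rw [SetLike.mem_coe, e1]
  exact h4

/-- An object with Frobenius eigenvalues in `L`. -/
theorem exists_object [Normal ℚ L] (A : AbVar p Ω) (hA : FrobeniusIn L A) :
    ∃ (D : AbVar p Ω) (s : ℕ), 0 < s ∧ D.m = A.m * s ∧ (∀ a, HasEigen D a → a ∈ L) ∧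
      ∀ a, HasEigen A a → HasEigen D (a ^ s) := by
  classical
  have hfin : {a : Ω | HasEigen A a}.Finite := by
    refine (A.F.charpoly.rootSet_finite Ω).subset fun a ha => ?_
    rw [mem_rootSet]
    exact ⟨(LinearMap.charpoly_monic _).ne_zero, by simpa using (eigen_iff A a).1 ha⟩
  have hA' : ∀ a : hfin.toFinset, ∃ s : ℕ, 0 < s ∧ a.1 ^ s ∈ L := by
    rintro ⟨a, ha⟩
    obtain ⟨v, hv, h⟩ := hfin.mem_toFinset.1 ha
    exact hA a v hv h
  choose s hs hsL using hA'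
  let t : ℕ := ∏ a, s a
  have ht : 0 < t := Finset.prod_pos fun a _ => hs a
  have htL : ∀ a, HasEigen A a → a ^ t ∈ L := by
    intro a ha
    obtain ⟨n, hn⟩ := Finset.dvd_prod_of_mem s (Finset.mem_univ ⟨a, hfin.mem_toFinset.2 ha⟩)
    change a ^ (∏ a, s a) ∈ L
    rw [hn, pow_mul]
    exact pow_mem (hsL ⟨a, hfin.mem_toFinset.2 ha⟩) n
  let W : Set Ω := {z | z ∈ L ∧ IsIntegral ℤ z}
  have hW : ∀ w ∈ W, ∀ b : Ω, aeval b (minpoly ℚ w) = 0 → b ∈ W := by
    rintro w ⟨hwL, hwi⟩ b hb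
    refine ⟨?_, ?_⟩
    · have := pow_mem_of_root (isAlgebraic_of_isIntegral hwi) (s := 1) (by rwa [pow_one]) hb
      rwa [pow_one] at this
    · refine ⟨minpoly ℤ w, minpoly.monic hwi, ?_⟩
      rw [← aeval_def, ← aeval_map_algebraMap ℚ b (minpoly ℤ w),
        ← minpoly.isIntegrallyClosed_eq_field_fractions' ℚ hwi]
      exact hb
  obtain ⟨D, u, hDm, hDW, hu, hD⟩ := exists_universal' (p := p) (k := A.m * t)
    (Nat.mul_pos A.m_pos ht) hW (J := hfin.toFinset) (fun a => a.1 ^ t) (fun a => by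
      obtain ⟨v, hv, h⟩ := hfin.mem_toFinset.1 a.2
      have h1 := (isWeil_of_eigen A hv h).pow (s := t) ht
      exact ⟨h1, htL a.1 ⟨v, hv, h⟩, h1.1⟩)
  refine ⟨D, t, ht, hDm, ?_, ?_⟩
  · rintro a ⟨v, hv, h⟩
    exact (hDW a v hv h).1
  · rintro a ha
    obtain ⟨v, hv, h⟩ := ha
    have ha' : a ∈ hfin.toFinset := hfin.mem_toFinset.2 ⟨v, hv, h⟩
    obtain ⟨g, hg, hgu⟩ := hD A t 1 (fun j => if j = ⟨a, ha'⟩ then v else 0) (by
      intro j
      by_cases hj : j = ⟨a, ha'⟩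
      · rw [if_pos hj, hj, pow_one, pow_apply_eigen h]
      · rw [if_neg hj, map_zero, smul_zero])
    refine ⟨u ⟨a, ha'⟩, ?_, hu ⟨a, ha'⟩⟩
    intro h0
    have h1 := hgu ⟨a, ha'⟩
    rw [h0, map_zero, if_pos rfl] at h1
    exact hv h1.symm

/-- **The Tate conjecture and the generalised Tate conjecture from the classes of K3 type.** -/
theorem main [Normal ℚ L] (hN : 0 < N) (hS : HasDivisors S L) (hK : HasK3 S L N) (A : AbVar p Ω)
    (hA : FrobeniusIn L A) : (∀ (r : ℕ) (x : ExteriorAlgebra Ω A.H), IsTate A r x → x ∈ S.C A) ∧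
      ∀ j r : ℕ, Effective A j r ≤ Supported S A j r := by
  obtain ⟨D, t, ht, hDm, hDL, hAD⟩ := exists_object A hA
  obtain ⟨κ, W, X, hX, inv, e, τ, hB, _, hE, hfld, hfine⟩ := exists_boxN D hN
  have hWL : ∀ w ∈ W, ∃ s : ℕ, 0 < s ∧ w ^ s ∈ L := by
    intro w hw
    obtain ⟨s, hs, h⟩ := hfld w hw
    refine ⟨s, hs, ?_⟩
    exact (IntermediateField.adjoin_le_iff.2 (fun a ha => hDL a ha)) h
  have hEA : EigenIn (2 * κ) W A := by
    intro a v hv h
    obtain ⟨v', hv', h'⟩ := hAD a ⟨v, hv, h⟩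
    obtain ⟨w, hw, i, j, hi, hj, hij, hab⟩ := hE (a ^ t) v' hv' h'
    refine ⟨w, hw, t * i, j, Nat.mul_pos ht hi, hj, ?_, ?_⟩
    · rw [← hij, hDm]; ring
    · rw [pow_mul, hab]
  have hrel := rel_of_K3 hB hS hK hWL hfine
  have hlev := tate_level hB hWL hrel
  have hκ : 0 < 2 * κ := Nat.mul_pos two_pos hB.κ_pos
  exact ⟨fun r x hx => tate_mem_of_box hκ hB.weil hB.root
      (fun B hBm hBW r x hx => hlev B hBm hBW r x hx) hEA r x hx,
    fun j r => effective_le_supported hB (fun B hBm hBW r x hx => hlev B hBm hBW r x hx) A hEA j r⟩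

end Pool.Agent.V8H77.K3
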