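import Pool.Agent.V8H77.K3.Fin

/-!
# One class of K3 type
-/

set_option autoImplicit false

namespace Pool.Agent.V8H77.K3

open Module Polynomial
open Pool.Agent.V8H94.CT
open Pool.Agent.V8H77.NT (K3Number exists_boxN)

variable {p : ℕ} [Fact p.Prime] {Ω : Type} [Field Ω] [CharZero Ω]

/-- The span of the products `x * y * z` with `x` of degree two, `y` in the part of K3 type, `z`
supersingular of degree one. -/
def K3Comp (N : ℕ) (B : AbVar p Ω) : Submodule Ω (ExteriorAlgebra Ω B.H) :=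
  Submodule.span Ω {x | ∃ a ∈ ⋀[Ω]^2 B.H, ∃ y ∈ K3Part N B, ∃ z, IsSupersingularClass B 1 z ∧
    x = a * y * z}

theorem isTate_zero (B : AbVar p Ω) (r : ℕ) : IsTate B r 0 :=
  ⟨Submodule.zero_mem _, 1, one_pos, by simp⟩

theorem IsTate.add {B : AbVar p Ω} {r : ℕ} {x y : ExteriorAlgebra Ω B.H} (hx : IsTate B r x)
    (hy : IsTate B r y) : IsTate B r (x + y) := by
  obtain ⟨hx, s, hs, hxs⟩ := hx
  obtain ⟨hy, t, ht, hyt⟩ := hy
  refine ⟨Submodule.add_mem _ hx hy, s * t, Nat.mul_pos hs ht, ?_⟩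
  have h1 := map_pow_eigen hxs t
  have h2 := map_pow_eigen hyt s
  rw [mul_comm t s] at h2
  have e1 : B.m * r * s * t = B.m * r * (s * t) := by ring
  have e2 : B.m * r * t * s = B.m * r * (s * t) := by ring
  rw [map_add, h1, h2, ← pow_mul, ← pow_mul, e1, e2, smul_add]

theorem isTate_sum {B : AbVar p Ω} {r : ℕ} {ι : Type} (T : Finset ι)
    (f : ι → ExteriorAlgebra Ω B.H) (h : ∀ i ∈ T, IsTate B r (f i)) :
    IsTate B r (∑ i ∈ T, f i) := by
  classical
  induction T using Finset.induction_on with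
  | empty => simpa using isTate_zero B r
  | insert i T hi ih =>
    rw [Finset.sum_insert hi]
    exact IsTate.add (h i (Finset.mem_insert_self i T))
      (ih fun j hj => h j (Finset.mem_insert_of_mem hj))

variable {S : CycleSystem p Ω} {k : ℕ} {W : Set Ω}

/-- The quadruples of the special relations. -/
def Special (p k : ℕ) (W : Set Ω) {X : Type} (inv : X → X) (τ : Ω → X → ℤ) (ρ : Fin 4 → W) : Prop :=
  (∃ s : ℕ, 0 < s ∧ ((ρ 0).1 * (ρ 1).1 * (ρ 2).1 * (ρ 3).1) ^ s = (((p : Ω) ^ k) ^ 4) ^ s) ∧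
  (∃ x, (∀ y, y ≠ x → y ≠ inv x → τ (ρ 2).1 y = 0) ∧ ∀ y, |τ (ρ 2).1 y| ≤ 1) ∧
  ∃ s : ℕ, 0 < s ∧ (ρ 3).1 ^ s = ((p : Ω) ^ k) ^ s

variable [IsAlgClosed Ω]

/-- **One class of K3 type.** -/
theorem exists_one (A : AbVar p Ω) {N : ℕ} (hN : 0 < N) :
    ∃ (B : AbVar p Ω) (ξ : ExteriorAlgebra Ω B.H), IsBuiltFrom A B ∧
    (∀ b : Ω, HasEigen B b → ∃ s : ℕ, 0 < s ∧
      b ^ s ∈ IntermediateField.adjoin ℚ {a : Ω | HasEigen A a}) ∧
    IsTate B 2 ξ ∧ ξ ∈ K3Comp N B ∧
    ∀ S : CycleSystem p Ω, TateHolds S B 1 →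
      List.TFAE [TateHoldsFor S B ∧ GeneralisedTateHoldsFor S B, TateHolds S B 2, ξ ∈ S.C B] := by
  classical
  obtain ⟨κ, W, X, _, inv, e, τ, hbox, hWfin, hAW, hfld, hfine⟩ := exists_boxN A hN
  have hκ := hbox.κ_pos
  have := hWfin.fintype
  let I : Type := {ρ : Fin 4 → W // Special p κ W inv τ ρ}
  have hI : Fintype I := Fintype.ofFinite I
  let f : (Fin 4 × W) ⊕ (I × Fin 4) → Ω := Sum.elim (fun j => j.2.1) (fun j => (j.1.1 j.2).1)
  have hfW : ∀ j, f j ∈ W := by
    rintro (j | j)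
    · exact j.2.2
    · exact (j.1.1 j.2).2
  obtain ⟨B, u, hBm, hBW, hu, hB⟩ := exists_universal' (p := p) (k := 2 * κ)
    (Nat.mul_pos two_pos hκ) hbox.root f (fun j => ⟨hbox.weil _ (hfW j), hfW j⟩)
  have huU : ∀ j : Fin 4 × W, B.F (u (Sum.inl j)) = j.2.1 • u (Sum.inl j) := fun j => hu _
  have huI : ∀ (ρ : I) (i : Fin 4), B.F (u (Sum.inr (ρ, i))) = (ρ.1 i).1 • u (Sum.inr (ρ, i)) :=
    fun ρ i => hu _
  have hBU : ∀ (C : AbVar p Ω) (s t : ℕ) (v : Fin 4 × W → C.H),
        (∀ j, (C.F ^ s) (v j) = (j.2.1) ^ t • v j) →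
        ∃ h : B.H →ₗ[Ω] C.H, h ∘ₗ (B.F ^ t) = (C.F ^ s) ∘ₗ h ∧ ∀ j, h (u (Sum.inl j)) = v j := by
    intro C s t v hv
    obtain ⟨h, hh, hhu⟩ := hB C s t (Sum.elim v fun _ => 0) (by
      rintro (j | j)
      · exact hv j
      · simp)
    exact ⟨h, hh, fun j => hhu (Sum.inl j)⟩
  have heig : ∀ b ∈ W, HasEigen B b := by
    intro b hb
    refine ⟨u (Sum.inl (0, ⟨b, hb⟩)), ?_, hu _⟩
    intro hzero
    obtain ⟨D, n', e, c, hDm, he1, _, _, i, hi⟩ := exists_isotypic (p := p)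
      (Nat.mul_pos two_pos hκ) (hbox.weil b hb)
    obtain ⟨h, _, hhu⟩ := hBU D 1 1 (fun j => if j = (0, ⟨b, hb⟩) then e (Sum.inl i) else 0) (by
      intro j
      by_cases hj : j = (0, ⟨b, hb⟩)
      · rw [if_pos hj, hj, pow_one, pow_one, he1, hi]
      · rw [if_neg hj, map_zero, smul_zero])
    have h1 := hhu (0, ⟨b, hb⟩)
    rw [hzero, map_zero, if_pos rfl] at h1
    exact e.ne_zero (Sum.inl i) h1.symm
  let q : I → ExteriorAlgebra Ω B.H := fun ρ =>
    wedge [u (Sum.inr (ρ, 0)), u (Sum.inr (ρ, 1)), u (Sum.inr (ρ, 2)), u (Sum.inr (ρ, 3))]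
  let ξ : ExteriorAlgebra Ω B.H := ∑ ρ, q ρ
  have hqT : ∀ ρ, IsTate B 2 (q ρ) := by
    intro ρ
    obtain ⟨s, hs, hprod⟩ := ρ.2.1
    exact isTate_four (X := B) hBm (huI ρ 0) (huI ρ 1) (huI ρ 2) (huI ρ 3) hs hprod
  have hξT : IsTate B 2 ξ := isTate_sum _ _ fun ρ _ => hqT ρ
  have hξK : ξ ∈ K3Comp N B := by
    refine Submodule.sum_mem _ fun ρ _ => Submodule.subset_span ?_
    obtain ⟨x, hx, hx1⟩ := ρ.2.2.1
    obtain ⟨t, ht, h4⟩ := ρ.2.2.2
    obtain ⟨h3a, h3b⟩ := hfine (ρ.1 2).1 (ρ.1 2).2 x hx hx1 (ρ.1 2).1 (minpoly.aeval ℚ _)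
    refine ⟨wedge [u (Sum.inr (ρ, 0)), u (Sum.inr (ρ, 1))], wedge_mem [_, _],
      wedge [u (Sum.inr (ρ, 2))], Submodule.subset_span ⟨_, _, huI ρ 2, ?_, ?_, by simp⟩,
      wedge [u (Sum.inr (ρ, 3))], ?_, by simp [q, mul_assoc]⟩
    · rw [hBm]; exact h3a
    · rw [hBm]; exact h3b
    · refine ⟨wedge_mem [_], t, ht, ?_⟩
      rw [map_wedge]
      simp only [List.map_cons, List.map_nil, wedge_cons, wedge_nil, mul_one,
        pow_apply_eigen (huI ρ 3), map_smul]
      rw [hBm, mul_comm 2 t, pow_mul, h4, ← pow_mul, ← pow_mul]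
      congr 2
      ring
  refine ⟨B, ξ, isBuiltFrom_of_eigenIn (Nat.mul_pos two_pos hκ) hBm heig hAW, ?_, hξT, hξK,
    fun S hdiv => ?_⟩
  · rintro b ⟨w, hw, h⟩
    exact hfld b (hBW b w hw h)
  · tfae_have 1 → 2 := fun H => H.1 B (isBuiltFrom_refl B) 2
    tfae_have 2 → 3 := fun H => H _ hξT
    tfae_have 3 → 1 := by
      intro H
      have hpb : PBase S κ W := pbase_of_universal hκ hbox.weil hbox.root hbox.base B hBm
        (fun j => u (Sum.inl j)) huU hBU hdiv
      have hbase : Base S κ W := hpb.toBase hbox (by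
        intro w₁ hw₁ w₂ hw₂ w₃ hw₃ w₄ hw₄ hprod hx ht A hA T hT hμ
        obtain ⟨⟨x', u₁⟩, ⟨y', u₂⟩, T', rfl, hx', hy', hT'⟩ := exists_two hμ
        obtain ⟨⟨z', u₃⟩, ⟨c', u₄⟩, T'', rfl, hz', hc', hT''⟩ := exists_two (μ := 0) hT'
        rw [Multiset.map_eq_zero] at hT''
        subst hT''
        simp only at hx' hy' hz' hc'
        subst hx' hy' hz' hc'
        have h1 := hT (x', u₁) (by simp)
        have h2 := hT (y', u₂) (by simp)
        have h3' := hT (z', u₃) (by simp)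
        have h4' := hT (c', u₄) (by simp)
        simp only at h1 h2 h3' h4'
        let ρ₀ : Fin 4 → W := ![⟨x', hw₁⟩, ⟨y', hw₂⟩, ⟨z', hw₃⟩, ⟨c', hw₄⟩]
        let ρ : I := ⟨ρ₀, hprod, hx, ht⟩
        let v₀ : Fin 4 → A.H := ![u₁, u₂, u₃, u₄]
        have hv₀ : ∀ i, A.F (v₀ i) = (ρ₀ i).1 • v₀ i := by
          intro i
          fin_cases i
          · exact h1
          · exact h2
          · exact h3'
          · exact h4'
        obtain ⟨h, hh, hhu⟩ := hB A 1 1
          (Sum.elim (fun _ => 0) fun j => if j.1 = ρ then v₀ j.2 else 0) (by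
            rintro (j | j)
            · simp
            · rw [pow_one, pow_one]
              by_cases hj : j.1 = ρ
              · have e1 : f (Sum.inr j) = (ρ₀ j.2).1 := by
                  change (j.1.1 j.2).1 = _
                  rw [hj]
                simp only [Sum.elim_inr]
                rw [if_pos hj, e1]
                exact hv₀ j.2
              · simp only [Sum.elim_inr]
                rw [if_neg hj, map_zero, smul_zero])
        have e1 : ∀ i, h (u (Sum.inr (ρ, i))) = v₀ i := by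
          intro i
          rw [hhu]
          simp only [Sum.elim_inr]
          rw [if_pos trivial]
        have e2 : ∀ (ρ' : I) i, ρ' ≠ ρ → h (u (Sum.inr (ρ', i))) = 0 := by
          intro ρ' i hne
          rw [hhu]
          simp only [Sum.elim_inr]
          rw [if_neg hne]
        have h6 := S.pull A B h (isHom_of_comm (by rw [hA, hBm]) (pow_comp_pow hh)) _ H
        have e3 : ExteriorAlgebra.map h ξ = wedge [u₁, u₂, u₃, u₄] := by
          change ExteriorAlgebra.map h (∑ ρ, q ρ) = _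
          rw [map_sum, Finset.sum_eq_single ρ]
          · simp only [q]
            rw [map_wedge]
            simp only [List.map_cons, List.map_nil, e1]
            rfl
          · intro ρ' _ hne
            simp only [q]
            rw [map_wedge]
            simp only [List.map_cons, List.map_nil, e2 ρ' _ hne, wedge_cons, map_zero, zero_mul]
          · intro hne
            exact absurd (Finset.mem_univ _) hne
        rw [e3] at h6
        exact Mem.of_list h6)
      have hS := tate_mem_box hbase hbox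
      refine ⟨fun C hC r x hx => ?_, fun C hC j r => ?_⟩
      · exact tate_mem_of_box (Nat.mul_pos two_pos hκ) hbox.weil hbox.root hS
          (eigenIn_of_isBuiltFrom hBm hBW hC) r x hx
      · exact effective_le_supported hbox hS C (eigenIn_of_isBuiltFrom hBm hBW hC) j r
    tfae_finish

end Pool.Agent.V8H77.K3
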