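import Pool.Agent.V8H77.K3.PubDefs
import Pool.Agent.V8H77.K3.Main
import Pool.Agent.V8H94.CT.Gtc3

/-!
# Classes of K3 type suffice: the statement in public notation
-/

set_option autoImplicit false

open NumberField

namespace Pool.Agent.V8H77.KT

open Module Polynomial
open Pool.Agent.V8H94.CT (AbVar HasEigen isWeil_of_eigen isAlgebraic_of_isIntegral eigen_iff
  exists_lift exists_emb_of_root)
open Pool.Agent.V8H94.TC

variable {p : ℕ} [Fact p.Prime] {Ω : Type} [Field Ω] [CharZero Ω]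

/-- The largest normal subfield of `L`. -/
theorem exists_normal [IsAlgClosed Ω] (L : Subfield Ω) : ∃ L' : IntermediateField ℚ Ω,
    Normal ℚ L' ∧ (∀ x ∈ L', x ∈ L) ∧
      ∀ x : Ω, IsAlgebraic ℚ x → (∀ y : Ω, aeval y (minpoly ℚ x) = 0 → y ∈ L) → x ∈ L' := by
  let W : Set Ω := {x | IsAlgebraic ℚ x ∧ ∀ y : Ω, aeval y (minpoly ℚ x) = 0 → y ∈ L}
  let L' : IntermediateField ℚ Ω := IntermediateField.adjoin ℚ W
  have hWL' : ∀ x ∈ W, x ∈ L' := fun x hx => IntermediateField.subset_adjoin ℚ W hx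
  have hsplit : ∀ x ∈ W, IsIntegral ℚ x ∧ ((minpoly ℚ x).map (algebraMap ℚ L')).Splits := by
    rintro x ⟨hx, hy⟩
    refine ⟨hx.isIntegral, IntermediateField.splits_of_splits (IsAlgClosed.splits _) ?_⟩
    intro y hyr
    have h0 : aeval y (minpoly ℚ x) = 0 := (mem_rootSet.1 hyr).2
    have h1 : minpoly ℚ x = minpoly ℚ y :=
      minpoly.eq_of_irreducible_of_monic (minpoly.irreducible hx.isIntegral) h0
        (minpoly.monic hx.isIntegral)
    refine hWL' y ⟨⟨minpoly ℚ x, minpoly.ne_zero hx.isIntegral, h0⟩, fun z hz => ?_⟩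
    rw [← h1] at hz
    exact hy z hz
  refine ⟨L', ?_, ?_, fun x hx hy => hWL' x ⟨hx, hy⟩⟩
  · have hint : ∀ x : Ω, x ∈ L' → IsIntegral ℚ x := by
      have h1 : L' ≤ algebraicClosure ℚ Ω :=
        IntermediateField.adjoin_le_iff.2 fun x hx => mem_algebraicClosure_iff.2 hx.1
      exact fun x hx => (mem_algebraicClosure_iff.1 (h1 hx)).isIntegral
    refine normal_iff.2 fun x => ?_
    have h2 : minpoly ℚ (x : Ω) = minpoly ℚ x :=
      minpoly.algebraMap_eq (algebraMap L' Ω).injective x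
    refine ⟨?_, ?_⟩
    · rw [← isIntegral_algebraMap_iff (algebraMap L' Ω).injective]
      exact hint x x.2
    · rw [← h2]
      exact IntermediateField.splits_of_mem_adjoin ℚ Ω hsplit x.2
  · have h : L' ≤ L.toIntermediateField (fun q => by
        rw [eq_ratCast]; exact SubfieldClass.ratCast_mem L q) :=
      IntermediateField.adjoin_le_iff.2 fun x hx => hx.2 x (minpoly.aeval ℚ x)
    exact h

theorem frobeniusIn_normal [IsAlgClosed Ω] {L : Subfield Ω} {L' : IntermediateField ℚ Ω}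
    (h : ∀ x : Ω, IsAlgebraic ℚ x → (∀ y : Ω, aeval y (minpoly ℚ x) = 0 → y ∈ L) → x ∈ L')
    {A : AbVar p Ω} (hA : FrobeniusIn L A) : V8H94.CT.FrobeniusIn L' A := by
  classical
  have hfin : {a : Ω | HasEigen A a}.Finite := by
    refine (A.F.charpoly.rootSet_finite Ω).subset fun a ha => ?_
    rw [mem_rootSet]
    exact ⟨(LinearMap.charpoly_monic _).ne_zero, by simpa using (eigen_iff A a).1 ha⟩
  have hA' : ∀ a : hfin.toFinset, ∃ s : ℕ, 0 < s ∧ a.1 ^ s ∈ L := fun a =>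
    hA a.1 (hfin.mem_toFinset.1 a.2)
  choose s hs hsL using hA'
  let t : ℕ := ∏ a, s a
  have ht : 0 < t := Finset.prod_pos fun a _ => hs a
  have htL : ∀ a, HasEigen A a → a ^ t ∈ L := by
    intro a ha
    obtain ⟨n, hn⟩ := Finset.dvd_prod_of_mem s (Finset.mem_univ ⟨a, hfin.mem_toFinset.2 ha⟩)
    change a ^ (∏ a, s a) ∈ L
    rw [hn, pow_mul]
    exact pow_mem (hsL ⟨a, hfin.mem_toFinset.2 ha⟩) n
  intro a v hv hav
  refine ⟨t, ht, ?_⟩
  have halg : IsAlgebraic ℚ a := isAlgebraic_of_isIntegral (isWeil_of_eigen A hv hav).1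
  refine h _ (halg.pow t) fun y hy => ?_
  obtain ⟨x, hx⟩ := exists_lift halg
  have hxt : ((x ^ t : algebraicClosure ℚ Ω) : Ω) = a ^ t := by
    rw [← hx]; rfl
  rw [← hxt] at hy
  obtain ⟨ψ, hψ⟩ := exists_emb_of_root (x ^ t) hy
  rw [map_pow] at hψ
  rw [← hψ]
  apply htL
  refine (eigen_iff A (ψ x)).2 ?_
  obtain ⟨f, -, hf⟩ := A.frob
  have h1 : aeval a f = 0 := by
    have h2 := (eigen_iff A a).1 ⟨v, hv, hav⟩
    rw [hf, IsRoot.def, eval_map, ← aeval_def] at h2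
    exact h2
  have h3 : aeval x f = 0 := by
    have h4 : algebraMap (algebraicClosure ℚ Ω) Ω (aeval x f) = 0 := by
      rw [← aeval_algebraMap_apply]
      change aeval (x : Ω) f = 0
      rw [hx]
      exact h1
    exact (map_eq_zero_iff _ (algebraMap (algebraicClosure ℚ Ω) Ω).injective).1 h4
  rw [hf, IsRoot.def, eval_map, ← aeval_def, aeval_algHom_apply, h3, map_zero]

theorem FrobeniusIn.of_normal {L : Subfield Ω} {L' : IntermediateField ℚ Ω}
    (h : ∀ x ∈ L', x ∈ L) {A : AbVar p Ω} (hA : V8H94.CT.FrobeniusIn L' A) : FrobeniusIn L A := by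
  rintro a ⟨v, hv, hav⟩
  obtain ⟨s, hs, h1⟩ := hA a v hv hav
  exact ⟨s, hs, h _ h1⟩

theorem mem_kuenneth (A C E : AbVar p Ω) (hm : A.m = C.m) (hm' : (A.prod C hm).m = E.m)
    (y : Coh A) (hy : y ∈ deg A 2) (c : C.H) (e : E.H) :
    pullFst (A.prod C hm) E hm' (pullFst A C hm y * pullSnd A C hm (ExteriorAlgebra.ι Ω c)) *
      pullSnd (A.prod C hm) E hm' (ExteriorAlgebra.ι Ω e) ∈ kuenneth A C E hm hm' := by
  refine Submodule.subset_span ⟨y, ExteriorAlgebra.ι Ω c, ExteriorAlgebra.ι Ω e, hy, ?_, ?_, rfl⟩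
  · change _ ∈ ⋀[Ω]^1 C.H
    rw [ExteriorAlgebra.exteriorPower, pow_one]
    exact ⟨c, rfl⟩
  · change _ ∈ ⋀[Ω]^1 E.H
    rw [ExteriorAlgebra.exteriorPower, pow_one]
    exact ⟨e, rfl⟩

theorem kun_le (A C E : AbVar p Ω) (hm : A.m = C.m) (hm' : (A.prod C hm).m = E.m)
    {x : ExteriorAlgebra Ω ((A.H × C.H) × E.H)}
    (hx : x ∈ K3.kun (Ω := Ω) (H := A.H) (H' := C.H) (H'' := E.H)) :
    (show Coh ((A.prod C hm).prod E hm') from x) ∈ kuenneth A C E hm hm' := by
  let U : Submodule Ω (ExteriorAlgebra Ω ((A.H × C.H) × E.H)) := kuenneth A C E hm hm'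
  suffices h : K3.kun (Ω := Ω) (H := A.H) (H' := C.H) (H'' := E.H) ≤ U from h hx
  refine Submodule.span_le.2 ?_
  rintro _ ⟨y, hy, c, e, rfl⟩
  have h1 := mem_kuenneth A C E hm hm' y hy c e
  have e1 : pullSnd A C hm (ExteriorAlgebra.ι Ω c) =
      ExteriorAlgebra.ι Ω (LinearMap.inr Ω A.H C.H c) :=
    ExteriorAlgebra.map_apply_ι (inclSnd A C hm) c
  have e2 : pullSnd (A.prod C hm) E hm' (ExteriorAlgebra.ι Ω e) =
      ExteriorAlgebra.ι Ω (LinearMap.inr Ω (A.H × C.H) E.H e) :=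
    ExteriorAlgebra.map_apply_ι (inclSnd (A.prod C hm) E hm') e
  rw [e1, e2] at h1
  exact h1

theorem hasK3 {S : CycleSystem p Ω} {L : Subfield Ω} {L' : IntermediateField ℚ Ω} {N : ℕ}
    (h : ∀ x ∈ L', x ∈ L) (hS : K3TypeClasses S L N) : K3.HasK3 S.toCT L' N := by
  intro A C E hm hm' hA hC hCK hCN hE x hx hT
  exact hS A C E hm hm' (.of_normal h hA) (.of_normal h hC)
    (fun a ha => ⟨hCK a ha, hCN a ha⟩) hE x (kun_le A C E hm hm' hx) hT

theorem frobeniusIn_prod {L : Subfield Ω} {A B : AbVar p Ω} (hm : A.m = B.m)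
    (hA : FrobeniusIn L A) (hB : FrobeniusIn L B) : FrobeniusIn L (A.prod B hm) := by
  rintro a ⟨⟨v, w⟩, hvw, h⟩
  have h1 : A.F v = a • v := congrArg Prod.fst h
  have h2 : B.F w = a • w := congrArg Prod.snd h
  by_cases hv : v = 0
  · have hw : w ≠ 0 := by
      rintro rfl
      exact hvw (by rw [hv]; rfl)
    exact hB a ⟨w, hw, h2⟩
  · exact hA a ⟨v, hv, h1⟩

theorem frobeniusIn_curve {L : Subfield Ω} {E : AbVar p Ω} (hE : IsSupersingularCurve E) :
    FrobeniusIn L E := by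
  obtain ⟨-, c, -, hc⟩ := hE
  rintro a ⟨v, hv, h⟩
  rw [hc v] at h
  have h1 : (c : Ω) = a := smul_left_injective Ω hv h
  exact ⟨1, one_pos, by rw [pow_one, ← h1]; exact natCast_mem L c⟩

/-- **The Tate classes of K3 type suffice.** -/
theorem k3_type_classes_suffice [IsAlgClosed Ω] (L : Subfield Ω) (N : ℕ) (hN : 0 < N)
    (S : CycleSystem p Ω) (hS : ∀ A : AbVar p Ω, FrobeniusIn L A → TateHolds S A 1) :
    List.TFAE [∀ A : AbVar p Ω, FrobeniusIn L A → GeneralisedTate S A,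
      ∀ A : AbVar p Ω, FrobeniusIn L A → ∀ r : ℕ, TateHolds S A r,
      K3TypeClasses S L N] := by
  tfae_have 1 → 2 := fun H A hA r => (H A hA).tateHolds r
  tfae_have 2 → 3 := by
    intro H A C E hm hm' hA hC _ hE x _ hT
    exact H _ (frobeniusIn_prod hm' (frobeniusIn_prod hm hA hC) (frobeniusIn_curve hE)) 2 x hT
  tfae_have 3 → 1 := by
    intro H A hA
    obtain ⟨L', hnor, hle, hmem⟩ := exists_normal L
    have hdiv : V8H94.CT.HasDivisors S.toCT L' := fun B hB x hx => hS B (.of_normal hle hB) x hx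
    exact generalisedTate_of (K3.main hN hdiv (hasK3 hle H) A (frobeniusIn_normal hmem hA)).2
  tfae_finish

end Pool.Agent.V8H77.KT
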