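import Pool.Agent.V8H94.CT.PubDefs2

/-!
# Tate classes of K3 type: definitions
-/

set_option autoImplicit false

open NumberField

namespace Pool.Agent.V8H77.KT

open Module
open Pool.Agent.V8H94.CT (AbVar HasEigen)
open Pool.Agent.V8H94.TC

variable {p : ℕ} [Fact p.Prime] {Ω : Type} [Field Ω] [CharZero Ω]

/-- The Frobenius eigenvalues of `A` have powers in the field `L`. -/
def FrobeniusIn (L : Subfield Ω) (A : AbVar p Ω) : Prop :=
  ∀ a : Ω, HasEigen A a → ∃ s : ℕ, 0 < s ∧ a ^ s ∈ L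

/-- The number `a` is of K3 type for `q = p ^ m`: a power `a ^ s` is an element `α` of the ring of
integers of a number field `K`, normal over `ℚ`, and for all prime ideals `P` of `K` with at most two
exceptions the numbers `α ^ 2` and `q ^ s` are divisible by the same powers of `P`. -/
def IsK3Number (p m : ℕ) (a : Ω) : Prop :=
  ∃ (s : ℕ) (K : IntermediateField ℚ Ω) (α : 𝓞 K) (P₁ P₂ : Ideal (𝓞 K)), 0 < s ∧
    FiniteDimensional ℚ K ∧ Normal ℚ K ∧ ((α : K) : Ω) = a ^ s ∧
    ∀ P : Ideal (𝓞 K), P.IsPrime → P ≠ P₁ → P ≠ P₂ →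
      ∀ n : ℕ, α ^ 2 ∈ P ^ n ↔ (p : 𝓞 K) ^ (m * s) ∈ P ^ n

/-- The slope of `a` is at least `1 / 2 - 1 / (2 * N)` at all places: the number
`a ^ (2 * N) / q ^ (N - 1)` is integral, `q = p ^ m`. For a Weil number `a` then all slopes are also at
most `1 / 2 + 1 / (2 * N)`, since `q / a` is a conjugate of `a`. -/
def IsNear (p m N : ℕ) (a : Ω) : Prop :=
  IsIntegral ℤ (a ^ (2 * N) / (p : Ω) ^ (m * (N - 1)))

/-- `C` is of K3 type and all its slopes are between `1 / 2 - 1 / (2 * N)` and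
`1 / 2 + 1 / (2 * N)`. -/
def IsK3Type (N : ℕ) (C : AbVar p Ω) : Prop :=
  ∀ a : Ω, HasEigen C a → IsK3Number p C.m a ∧ IsNear p C.m N a

/-- `E` is a supersingular elliptic curve over a finite field with `q` elements, `q` a square, on which
Frobenius is multiplication by a square root of `q`. -/
def IsSupersingularCurve (E : AbVar p Ω) : Prop :=
  finrank Ω E.H = 2 ∧ ∃ c : ℕ, c ^ 2 = p ^ E.m ∧ ∀ v : E.H, E.F v = (c : Ω) • v

/-- The Kuenneth component `H ^ 2 (A) ⊗ H ^ 1 (C) ⊗ H ^ 1 (E)` of the cohomology of `A × C × E`. -/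
noncomputable def kuenneth (A C E : AbVar p Ω) (hm : A.m = C.m) (hm' : (A.prod C hm).m = E.m) :
    Submodule Ω (Coh ((A.prod C hm).prod E hm')) :=
  Submodule.span Ω {x | ∃ (y : Coh A) (c : Coh C) (e : Coh E),
    y ∈ deg A 2 ∧ c ∈ deg C 1 ∧ e ∈ deg E 1 ∧
    x = pullFst (A.prod C hm) E hm' (pullFst A C hm y * pullSnd A C hm c) *
      pullSnd (A.prod C hm) E hm' e}

/-- The system contains the Tate classes of codimension two in `H ^ 2 (A) ⊗ H ^ 1 (C) ⊗ H ^ 1 (E)`, for
all `A` and `C` with Frobenius eigenvalues in `L`, `C` of K3 type with slopes as near to `1 / 2` as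
given by `N`, and supersingular elliptic curves `E`. -/
def K3TypeClasses (S : CycleSystem p Ω) (L : Subfield Ω) (N : ℕ) : Prop :=
  ∀ (A C E : AbVar p Ω) (hm : A.m = C.m) (hm' : (A.prod C hm).m = E.m), FrobeniusIn L A →
    FrobeniusIn L C → IsK3Type N C → IsSupersingularCurve E →
      ∀ x ∈ kuenneth A C E hm hm', IsTate ((A.prod C hm).prod E hm') 2 x →
        x ∈ S.C ((A.prod C hm).prod E hm')

end Pool.Agent.V8H77.KT
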