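import Pool.Agent.V8H77.NT.BoxN
import Pool.Agent.V8H71.TC.Box
import Pool.Agent.V8H94.CT.Cover
import Pool.Agent.V8H94.CT.Cancel

/-!
# Relations from Tate classes of K3 type
-/

set_option autoImplicit false

namespace Pool.Agent.V8H77.K3

open Module Polynomial
open Pool.Agent.V8H94.CT
open Pool.Agent.V8H77.NT (K3Number)

variable {p : ℕ} [Fact p.Prime] {Ω : Type} [Field Ω] [CharZero Ω]

/-- All Frobenius eigenvalues of `C` are numbers of K3 type. -/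
def IsK3Type (C : AbVar p Ω) : Prop := ∀ a : Ω, HasEigen C a → K3Number p C.m a

/-- All slopes of `C` are between `1 / 2 - 1 / (2 * N)` and `1 / 2 + 1 / (2 * N)`. -/
def IsNear (N : ℕ) (C : AbVar p Ω) : Prop :=
  ∀ a : Ω, HasEigen C a → IsIntegral ℤ (a ^ (2 * N) / (p : Ω) ^ (C.m * (N - 1)))

/-- The Kuenneth component `H ^ 2 (A) ⊗ H ^ 1 (C) ⊗ H ^ 1 (E)`. -/
def kun {H H' H'' : Type} [AddCommGroup H] [Module Ω H] [AddCommGroup H'] [Module Ω H']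
    [AddCommGroup H''] [Module Ω H''] : Submodule Ω (ExteriorAlgebra Ω ((H × H') × H'')) :=
  Submodule.span Ω {x | ∃ y ∈ ⋀[Ω]^2 H, ∃ (c : H') (e : H''),
    x = ExteriorAlgebra.map (LinearMap.inl Ω (H × H') H'')
      (ExteriorAlgebra.map (LinearMap.inl Ω H H') y *
        ExteriorAlgebra.ι Ω (LinearMap.inr Ω H H' c)) *
      ExteriorAlgebra.ι Ω (LinearMap.inr Ω (H × H') H'' e)}

/-- The system contains the Tate classes in `H ^ 2 (A) ⊗ H ^ 1 (C) ⊗ H ^ 1 (E)`, `E` a supersingular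
elliptic curve, `C` of K3 type and near to supersingular. -/
def HasK3 (S : CycleSystem p Ω) (L : IntermediateField ℚ Ω) (N : ℕ) : Prop :=
  ∀ (A C E : AbVar p Ω) (hm : A.m = C.m) (hm' : (A.prod C hm).m = E.m), FrobeniusIn L A →
    FrobeniusIn L C → IsK3Type C → IsNear N C → IsSupersingularCurve E →
      ∀ x : ExteriorAlgebra Ω ((A.H × C.H) × E.H), x ∈ kun (Ω := Ω) (H := A.H) (H' := C.H)
        (H'' := E.H) → IsTate ((A.prod C hm).prod E hm') 2 x → x ∈ S.C ((A.prod C hm).prod E hm')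

variable {S : CycleSystem p Ω} {L : IntermediateField ℚ Ω} {M N κ : ℕ}

/-- Pairs, up to roots of unity. -/
theorem rel_pair_pow (hS : HasDivisors S L) {a b : Ω} {k : ℕ} (hk : 0 < k)
    (hab : (a * b) ^ k = ((p : Ω) ^ M) ^ k) : Rel S L M {a, b} := by
  intro A hA hL T hT hμ
  obtain ⟨⟨x', u₁⟩, ⟨y', u₂⟩, T', rfl, hx', hy', hT'⟩ := exists_two (μ := 0) hμ
  rw [Multiset.map_eq_zero] at hT'
  subst hT'
  simp only at hx' hy'
  subst hx' hy'
  have h1 := hT (x', u₁) (by simp)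
  have h2 := hT (y', u₂) (by simp)
  simp only at h1 h2
  have h5 : wedge [u₁, u₂] ∈ S.C A := by
    refine hS A hL _ ⟨wedge_mem [_, _], k, hk, ?_⟩
    rw [map_wedge]
    simp only [List.map_cons, List.map_nil, wedge_cons, wedge_nil, mul_one,
      pow_apply_eigen h1, pow_apply_eigen h2, map_smul]
    rw [smul_mul_smul_comm, ← mul_pow, hab, hA, ← pow_mul]
  exact Mem.of_list h5

omit [CharZero Ω] in
theorem pow_apply_prod {H H' : Type} [AddCommGroup H] [Module Ω H] [AddCommGroup H']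
    [Module Ω H'] (F : H →ₗ[Ω] H) (F' : H' →ₗ[Ω] H') (n : ℕ) (v : H × H') :
    ((F.prodMap F') ^ n) v = ((F ^ n) v.1, (F' ^ n) v.2) := by
  induction n with
  | zero => simp
  | succ n ih =>
    rw [pow_succ', Module.End.mul_apply, ih, LinearMap.prodMap_apply, pow_succ',
      Module.End.mul_apply, pow_succ', Module.End.mul_apply]

omit [CharZero Ω] in
theorem pow_apply_form {H : Type} [AddCommGroup H] [Module Ω H] {F : H →ₗ[Ω] H} {χ : H →ₗ[Ω] Ω}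
    {a : Ω} (h : ∀ v, χ (F v) = a * χ v) (n : ℕ) (v : H) : χ ((F ^ n) v) = a ^ n * χ v := by
  induction n generalizing v with
  | zero => simp
  | succ n ih =>
    rw [pow_succ, Module.End.mul_apply, ih, h, pow_succ]
    ring

theorem isTate_four {X : AbVar p Ω} (hX : X.m = 2 * κ) {y₁ y₂ y₃ y₄ : X.H} {a₁ a₂ a₃ a₄ : Ω}
    (f1 : X.F y₁ = a₁ • y₁) (f2 : X.F y₂ = a₂ • y₂) (f3 : X.F y₃ = a₃ • y₃)
    (f4 : X.F y₄ = a₄ • y₄) {k : ℕ} (hk : 0 < k)
    (h : (a₁ * a₂ * a₃ * a₄) ^ k = (((p : Ω) ^ κ) ^ 4) ^ k) :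
    IsTate X 2 (wedge (R := Ω) [y₁, y₂, y₃, y₄]) := by
  refine ⟨wedge_mem [y₁, y₂, y₃, y₄], k, hk, ?_⟩
  rw [map_wedge]
  simp only [List.map_cons, List.map_nil, wedge_cons, wedge_nil, mul_one, pow_apply_eigen f1,
    pow_apply_eigen f2, pow_apply_eigen f3, pow_apply_eigen f4, map_smul]
  rw [smul_mul_smul_comm, smul_mul_smul_comm, smul_mul_smul_comm, hX]
  congr 1
  have h5 : a₁ ^ k * (a₂ ^ k * (a₃ ^ k * a₄ ^ k)) = (a₁ * a₂ * a₃ * a₄) ^ k := by ring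
  rw [h5, h, ← pow_mul, ← pow_mul]
  congr 1
  ring

/-- The special relations. -/
theorem rel_special [IsAlgClosed Ω] [Normal ℚ L] (hS : HasK3 S L N) (hκ : 0 < κ)
    {w₁ w₂ w₃ w₄ : Ω} (h3w : IsWeil p (2 * κ) w₃) {s : ℕ} (hs : 0 < s) (h3L : w₃ ^ s ∈ L)
    (hK3 : ∀ z : Ω, aeval z (minpoly ℚ w₃) = 0 → K3Number p (2 * κ) z ∧
      IsIntegral ℤ (z ^ (2 * N) / (p : Ω) ^ (2 * κ * (N - 1)))) {k : ℕ} (hk : 0 < k)
    (h4 : w₄ ^ k = ((p : Ω) ^ κ) ^ k)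
    (hprod : (w₁ * w₂ * w₃ * w₄) ^ k = (((p : Ω) ^ κ) ^ 4) ^ k) :
    Rel S L (2 * κ) {w₁, w₂, w₃, w₄} := by
  intro A hA hL T hT hμ
  obtain ⟨⟨x₁, u₁⟩, ⟨x₂, u₂⟩, T', rfl, hx₁, hx₂, hT'⟩ := exists_two hμ
  obtain ⟨⟨x₃, u₃⟩, ⟨x₄, u₄⟩, T'', rfl, hx₃, hx₄, hT''⟩ := exists_two (μ := 0) hT'
  rw [Multiset.map_eq_zero] at hT''
  subst hT''
  simp only at hx₁ hx₂ hx₃ hx₄
  subst hx₁ hx₂ hx₃ hx₄
  have e1 := hT (x₁, u₁) (by simp)
  have e2 := hT (x₂, u₂) (by simp)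
  have e3 := hT (x₃, u₃) (by simp)
  have e4 := hT (x₄, u₄) (by simp)
  simp only at e1 e2 e3 e4
  have hiso := h3w.isIsotypic
  obtain ⟨D, u, χ, hDm, hDe, hDu, hχu, hχ⟩ := exists_single (p := p) (Nat.mul_pos two_pos hκ)
    (W := {z : Ω | aeval z (minpoly ℚ x₃) = 0}) (by
      intro z hz b hb
      have h5 : minpoly ℚ z = minpoly ℚ x₃ :=
        (minpoly.eq_of_irreducible_of_monic hiso.irreducible hz hiso.monic).symm
      rw [h5] at hb
      exact hb) h3w (minpoly.aeval ℚ x₃)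
  obtain ⟨E, b, hEm, hE, hEF⟩ := exists_curve (p := p) (Ω := Ω) hκ
  have hm : A.m = D.m := by rw [hA, hDm]
  have hm' : (A.prod D hm).m = E.m := by
    change A.m = E.m
    rw [hA, hEm]
  have hDL : FrobeniusIn L D := by
    intro a v hv h
    exact ⟨s, hs, pow_mem_of_root (isAlgebraic_of_isIntegral h3w.1) h3L (hDe a v hv h)⟩
  have hDK : IsK3Type D := by
    rintro a ⟨v, hv, h⟩
    rw [hDm]
    exact (hK3 a (hDe a v hv h)).1
  have hDN : IsNear N D := by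
    rintro a ⟨v, hv, h⟩
    rw [hDm]
    exact (hK3 a (hDe a v hv h)).2
  let X := (A.prod D hm).prod E hm'
  let i₁ : A.H →ₗ[Ω] (A.H × D.H) × E.H := (LinearMap.inl Ω (A.H × D.H) E.H).comp
    (LinearMap.inl Ω A.H D.H)
  let y₁ : (A.H × D.H) × E.H := ((u₁, 0), 0)
  let y₂ : (A.H × D.H) × E.H := ((u₂, 0), 0)
  let y₃ : (A.H × D.H) × E.H := ((0, u), 0)
  let y₄ : (A.H × D.H) × E.H := ((0, 0), b 0)
  have f1 : X.F y₁ = x₁ • y₁ := by
    change (((A.F u₁, D.F 0), E.F 0) : (A.H × D.H) × E.H) = x₁ • ((u₁, 0), 0)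
    rw [e1]; simp
  have f2 : X.F y₂ = x₂ • y₂ := by
    change (((A.F u₂, D.F 0), E.F 0) : (A.H × D.H) × E.H) = x₂ • ((u₂, 0), 0)
    rw [e2]; simp
  have f3 : X.F y₃ = x₃ • y₃ := by
    change (((A.F 0, D.F u), E.F 0) : (A.H × D.H) × E.H) = x₃ • ((0, u), 0)
    rw [hDu]; simp
  have f4 : X.F y₄ = ((p : Ω) ^ κ) • y₄ := by
    change (((A.F 0, D.F 0), E.F (b 0)) : (A.H × D.H) × E.H) = ((p : Ω) ^ κ) • ((0, 0), b 0)
    rw [hEF]; simp
  have hXm : X.m = 2 * κ := hA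
  have hwk : wedge (R := Ω) [y₁, y₂, y₃, y₄] ∈ kun (Ω := Ω) (H := A.H) (H' := D.H) (H'' := E.H) := by
    refine Submodule.subset_span ⟨wedge [u₁, u₂], wedge_mem [u₁, u₂], u, b 0, ?_⟩
    rw [map_mul, map_wedge, map_wedge, ExteriorAlgebra.map_apply_ι]
    simp only [List.map_cons, List.map_nil, wedge_cons, wedge_nil, mul_one, mul_assoc]
    rfl
  have hwT : IsTate X 2 (wedge (R := Ω) [y₁, y₂, y₃, y₄]) := by
    refine isTate_four (X := X) hXm f1 f2 f3 f4 hk ?_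
    have h5 : (x₁ * x₂ * x₃ * (p : Ω) ^ κ) ^ k = (x₁ * x₂ * x₃ * x₄) ^ k := by
      rw [mul_pow, ← h4, ← mul_pow]
    rw [h5, hprod]
  have hmem := hS A D E hm hm' hL hDL hDK hDN hE _ hwk hwT
  let h : (A.H × D.H) × E.H →ₗ[Ω] A.H :=
    LinearMap.coprod (LinearMap.coprod LinearMap.id ((LinearMap.toSpanSingleton Ω A.H u₃).comp χ))
      ((LinearMap.toSpanSingleton Ω A.H u₄).comp (b.coord 0))
  have hval : ∀ (v : A.H) (d : D.H) (e : E.H), h ((v, d), e) = v + χ d • u₃ + b.coord 0 e • u₄ :=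
    fun v d e => rfl
  have hh : IsHom A X h := by
    refine ⟨k, k, hk, hk, rfl, ?_⟩
    apply LinearMap.ext
    rintro ⟨⟨v, d⟩, e⟩
    change h (((A.F.prodMap D.F).prodMap E.F ^ k) ((v, d), e)) = (A.F ^ k) (h ((v, d), e))
    rw [pow_apply_prod, pow_apply_prod]
    change h (((A.F ^ k) v, (D.F ^ k) d), (E.F ^ k) e) = _
    have hE' : ∀ n : ℕ, (E.F ^ n) e = ((p : Ω) ^ κ) ^ n • e := fun n => pow_apply_eigen (hEF e) n
    rw [hval, hval, map_add, map_add, map_smul, map_smul, pow_apply_eigen e3, pow_apply_eigen e4,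
      pow_apply_form hχ, hE', map_smul, smul_smul, smul_smul, smul_eq_mul, h4, mul_comm (x₃ ^ k),
      mul_comm (((p : Ω) ^ κ) ^ k)]
  have h6 := S.pull A X h hh _ hmem
  have h7 : ExteriorAlgebra.map h (wedge (R := Ω) [y₁, y₂, y₃, y₄]) = wedge [u₁, u₂, u₃, u₄] := by
    rw [map_wedge]
    simp only [List.map_cons, List.map_nil]
    have g1 : h y₁ = u₁ := by rw [hval]; simp
    have g2 : h y₂ = u₂ := by rw [hval]; simp
    have g3 : h y₃ = u₃ := by rw [hval, hχu]; simp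
    have g4 : h y₄ = u₄ := by rw [hval]; simp
    rw [g1, g2, g3, g4]
  exact Mem.of_list ((congrArg (· ∈ S.C A) h7).mp h6)

end Pool.Agent.V8H77.K3
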